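import Pool.Agent.helper52.FS.SpecE

open scoped MatrixGroups ContDiff Topology UpperHalfPlane ComplexConjugate
open UpperHalfPlane MeasureTheory Filter Set

set_option autoImplicit false

namespace Pool.Agent.FS

open Pool.Agent.RS
open Pool.Agent.MS (bq BB BA SF pf)
open Pool.Agent.EN (XG MG mkX mkM fl pr)

theorem LFG_tpc (S : Finset ℤ) (a : ℤ → ℂ) : Continuous (tp S a) := by
  unfold tp ee
  fun_prop

/-- integrals over a finite union -/
theorem LFG_union {ι : Type} [DecidableEq ι] (f : ℝ → ℝ) (hf : Continuous f) (hf0 : ∀ x, 0 ≤ f x) (Z : ι → Set ℝ) (s : Finset ι) (hZ : ∀ i ∈ s, Z i ⊆ Icc 0 1) :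
    ∫ v in ⋃ i ∈ s, Z i, f v ≤ ∑ i ∈ s, ∫ v in Z i, f v := by
  have hI : IntegrableOn f (Icc (0 : ℝ) 1) := hf.continuousOn.integrableOn_compact isCompact_Icc
  induction s using Finset.induction_on with
  | empty => simp
  | insert a s ha ih =>
    rw [Finset.sum_insert ha]
    have hU : (⋃ i ∈ insert a s, Z i) = Z a ∪ ⋃ i ∈ s, Z i := by
      rw [Finset.set_biUnion_insert]
    rw [hU]
    have h1 : IntegrableOn f (Z a) := hI.mono_set (hZ a (Finset.mem_insert_self _ _))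
    have h2 : IntegrableOn f (⋃ i ∈ s, Z i) := by
      refine hI.mono_set ?_
      intro x hx
      simp only [mem_iUnion] at hx
      obtain ⟨i, hi, hx⟩ := hx
      exact hZ i (Finset.mem_insert_of_mem hi) hx
    have h3 : ∫ v in Z a ∪ ⋃ i ∈ s, Z i, f v ≤ ∫ v, f v ∂(volume.restrict (Z a) + volume.restrict (⋃ i ∈ s, Z i)) := by
      refine integral_mono_measure (Measure.restrict_union_le _ _) ?_ (Integrable.add_measure h1 h2)
      exact Filter.Eventually.of_forall hf0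
    rw [integral_add_measure h1 h2] at h3
    have h4 := ih (fun i hi => hZ i (Finset.mem_insert_of_mem hi))
    linarith

/-- counting of the zeros -/
theorem LFG_card (θ : ℝ → ℝ) (ε : ℝ) (n : ℕ) (f : ℕ → ℝ) (hn : 1 ≤ n) (hθ : ∀ s, s ≤ 1 - 2 * ε → θ s = 0) (hf1 : ∀ i, f i ≤ 1)
    (h : θ ((∑ i ∈ Finset.range n, f i) / n) ≠ 0) : ((((Finset.range n).filter fun i => f i = 0).card : ℕ) : ℝ) ≤ 2 * ε * n := by
  classical
  have hn' : (0 : ℝ) < n := by exact_mod_cast hn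
  have h1 : 1 - 2 * ε < (∑ i ∈ Finset.range n, f i) / n := by
    by_contra hc
    exact h (hθ _ (not_lt.mp hc))
  rw [lt_div_iff₀ hn'] at h1
  have h2 : ∑ i ∈ Finset.range n, f i ≤ ∑ i ∈ Finset.range n, (1 - if f i = 0 then (1 : ℝ) else 0) := by
    refine Finset.sum_le_sum ?_
    intro i _
    split_ifs with h0
    · rw [h0]; norm_num
    · have := hf1 i
      linarith
  rw [Finset.sum_sub_distrib, Finset.sum_const, Finset.card_range, ← Finset.sum_filter, Finset.sum_const] at h2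
  simp only [nsmul_eq_mul, mul_one] at h2
  linarith

theorem LFG_cont (hG : GLC_stmt) (Γ : Subgroup SL(2, ℝ)) (χ χa χn χl : SL(2, ℝ) → ℝ) (hS : SF Γ χ χa χn χl) (g : SL(2, ℝ)) (t : ℝ) :
    Continuous fun v : ℝ => χ (g * lM v * aM t) := by
  obtain ⟨-, -, -, -, -, -, -, -, -, -, -, -, hl, -, -, -, -, -, hla, -⟩ := hG
  have h : ∀ k : SL(2, ℝ), Continuous fun v : ℝ => χ (k * lM v) := by
    intro k
    rw [continuous_iff_continuousAt]
    intro v0
    have h1 := (hS.dl (k * lM v0)).continuousAt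
    have h2 : ContinuousAt (fun v : ℝ => v - v0) v0 := by fun_prop
    have h3 : ContinuousAt (fun s : ℝ => χ (k * lM v0 * lM s)) (v0 - v0) := by
      rw [sub_self]
      exact h1
    have h4 := ContinuousAt.comp (f := fun v : ℝ => v - v0) h3 h2
    have h5 : ((fun s : ℝ => χ (k * lM v0 * lM s)) ∘ fun v : ℝ => v - v0) = fun v : ℝ => χ (k * lM v) := by
      funext v
      show χ (k * lM v0 * lM (v - v0)) = χ (k * lM v)
      rw [mul_assoc, ← hl]
      congr 3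
      ring
    rw [h5] at h4
    exact h4
  have h6 := (h (g * aM t)).comp (by fun_prop : Continuous fun v : ℝ => Real.exp t * v)
  have h7 : ((fun v : ℝ => χ (g * aM t * lM v)) ∘ fun v : ℝ => Real.exp t * v) = fun v : ℝ => χ (g * lM v * aM t) := by
    funext v
    show χ (g * aM t * lM (Real.exp t * v)) = χ (g * lM v * aM t)
    rw [mul_assoc, mul_assoc, hla]
  rw [h7] at h6
  exact h6

/-- the covering argument -/
theorem LFG_cover (n : ℕ) (ε Q1 : ℝ) (J : Finset ℤ) (c : ℤ → ℂ) (Y : Set ℝ) (YB : Finset ℕ → Set ℝ) (P : ℤ → Finset ℕ) (hQ1 : 0 ≤ Q1)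
    (hY : ∀ v ∈ Icc (0 : ℝ) 1 ∩ Y, ∃ B ∈ (Finset.range n).powerset.filter (fun B : Finset ℕ => (B.card : ℝ) ≤ 2 * ε * n), v ∈ YB B)
    (hP : ∀ j ∈ J, P j ∈ (Finset.range n).powerset.filter (fun B : Finset ℕ => (B.card : ℝ) ≤ 2 * ε * n))
    (hmain : ∀ B ∈ (Finset.range n).powerset.filter (fun B : Finset ℕ => (B.card : ℝ) ≤ 2 * ε * n), ∀ B' ∈ (Finset.range n).powerset.filter (fun B : Finset ℕ => (B.card : ℝ) ≤ 2 * ε * n),
      ∫ v in YB B ∩ Icc 0 1, ‖tp (J.filter fun j => P j = B') c v‖ ^ 2 ≤ Q1 * ∑ j ∈ J.filter (fun j => P j = B'), ‖c j‖ ^ 2) :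
    ∫ v in Icc (0 : ℝ) 1 ∩ Y, ‖tp J c v‖ ^ 2 ≤
      (((((Finset.range n).powerset.filter fun B : Finset ℕ => (B.card : ℝ) ≤ 2 * ε * n).card : ℕ) : ℝ)) ^ 2 * Q1 * ∑ j ∈ J, ‖c j‖ ^ 2 := by
  classical
  set D := (Finset.range n).powerset.filter (fun B : Finset ℕ => (B.card : ℝ) ≤ 2 * ε * n) with hD
  have hsplit : ∀ v, tp J c v = ∑ B ∈ D, tp (J.filter fun j => P j = B) c v := by
    intro v
    unfold tp
    exact (Finset.sum_fiberwise_of_maps_to hP _).symm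
  have hsplit2 : ∑ j ∈ J, ‖c j‖ ^ 2 = ∑ B ∈ D, ∑ j ∈ J.filter (fun j => P j = B), ‖c j‖ ^ 2 :=
    (Finset.sum_fiberwise_of_maps_to hP _).symm
  have hcs : ∀ v, ‖tp J c v‖ ^ 2 ≤ (D.card : ℝ) * ∑ B ∈ D, ‖tp (J.filter fun j => P j = B) c v‖ ^ 2 := by
    intro v
    rw [hsplit v]
    have h1 : ‖∑ B ∈ D, tp (J.filter fun j => P j = B) c v‖ ≤ ∑ B ∈ D, ‖tp (J.filter fun j => P j = B) c v‖ := norm_sum_le _ _
    exact (pow_le_pow_left₀ (norm_nonneg _) h1 2).trans sq_sum_le_card_mul_sum_sq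
  have hc1 : ∀ S : Finset ℤ, Continuous (fun v => ‖tp S c v‖ ^ 2) := fun S => ((LFG_tpc S c).norm).pow 2
  have hI : ∀ S : Finset ℤ, IntegrableOn (fun v => ‖tp S c v‖ ^ 2) (Icc (0 : ℝ) 1) := fun S => (hc1 S).continuousOn.integrableOn_compact isCompact_Icc
  -- first: monotone in the function on the union
  have hstep : ∀ B' ∈ D, ∫ v in Icc (0 : ℝ) 1 ∩ Y, ‖tp (J.filter fun j => P j = B') c v‖ ^ 2 ≤ (D.card : ℝ) * (Q1 * ∑ j ∈ J.filter (fun j => P j = B'), ‖c j‖ ^ 2) := by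
    intro B' hB'
    have h1 : ∫ v in Icc (0 : ℝ) 1 ∩ Y, ‖tp (J.filter fun j => P j = B') c v‖ ^ 2 ≤ ∫ v in ⋃ B ∈ D, (YB B ∩ Icc (0 : ℝ) 1), ‖tp (J.filter fun j => P j = B') c v‖ ^ 2 := by
      refine setIntegral_mono_set ?_ ?_ ?_
      · refine (hI _).mono_set ?_
        intro x hx
        simp only [mem_iUnion] at hx
        obtain ⟨i, _, hx⟩ := hx
        exact hx.2
      · exact Filter.Eventually.of_forall (fun v => by positivity)
      · refine HasSubset.Subset.eventuallyLE ?_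
        intro v hv
        obtain ⟨B, hB, hvB⟩ := hY v hv
        simp only [mem_iUnion]
        exact ⟨B, hB, hvB, hv.1⟩
    refine h1.trans ((LFG_union _ (hc1 _) (fun v => by positivity) (fun B => YB B ∩ Icc (0 : ℝ) 1) D (fun B _ => inter_subset_right)).trans ?_)
    calc ∑ B ∈ D, ∫ v in YB B ∩ Icc (0 : ℝ) 1, ‖tp (J.filter fun j => P j = B') c v‖ ^ 2 ≤ ∑ B ∈ D, Q1 * ∑ j ∈ J.filter (fun j => P j = B'), ‖c j‖ ^ 2 :=
          Finset.sum_le_sum (fun B hB => hmain B hB B' hB')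
      _ = _ := by rw [Finset.sum_const, nsmul_eq_mul]
  calc ∫ v in Icc (0 : ℝ) 1 ∩ Y, ‖tp J c v‖ ^ 2 ≤ ∫ v in Icc (0 : ℝ) 1 ∩ Y, (D.card : ℝ) * ∑ B ∈ D, ‖tp (J.filter fun j => P j = B) c v‖ ^ 2 := by
        refine integral_mono ((hI J).mono_set inter_subset_left) ?_ hcs
        refine Integrable.const_mul ?_ _
        exact integrable_finset_sum _ (fun B _ => (hI _).mono_set inter_subset_left)
    _ = (D.card : ℝ) * ∑ B ∈ D, ∫ v in Icc (0 : ℝ) 1 ∩ Y, ‖tp (J.filter fun j => P j = B) c v‖ ^ 2 := by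
        rw [integral_const_mul, integral_finset_sum _ (fun B _ => (hI _).mono_set inter_subset_left)]
    _ ≤ (D.card : ℝ) * ∑ B ∈ D, (D.card : ℝ) * (Q1 * ∑ j ∈ J.filter (fun j => P j = B), ‖c j‖ ^ 2) :=
        mul_le_mul_of_nonneg_left (Finset.sum_le_sum hstep) (Nat.cast_nonneg _)
    _ = _ := by
        rw [hsplit2, ← Finset.mul_sum, ← Finset.mul_sum]
        ring

theorem LFG_proof (hF : FWG_stmt) (hB : BWG_stmt) (hU : FUG_stmt) (hC : CNT_stmt) (hG : GLC_stmt) : LFG_stmt := by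
  classical
  intro Γ O c0 hΓ hO hOn hc0
  obtain ⟨c1, T1, hc1, hc1', hT1, HF⟩ := hF Γ O c0 hΓ hO hOn hc0
  obtain ⟨c2, T2, hc2, hc2', hT2, HB⟩ := hB Γ O c0 hΓ hO hOn hc0
  set cc : ℝ := min c1 c2 with hcc
  set T : ℝ := max T1 T2 with hT
  have hcc0 : 0 < cc := lt_min hc1 hc2
  have hcc1 : cc < 1 := (min_le_left _ _).trans_lt hc1'
  have hT' : 1 ≤ T := hT1.trans (le_max_left _ _)
  obtain ⟨γ, K1, hγ, hK1, HU⟩ := hU cc T hcc0 hcc1 hT'
  obtain ⟨ε1, hε1, hε1', HC⟩ := hC (γ / 8) (by positivity)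
  refine ⟨min ε1 (γ / (32 * (K1 + 1))), lt_min hε1 (by positivity), (min_le_left _ _).trans_lt hε1', ?_⟩
  intro ε κ0 Q hε hεe hκ0 hκ1 hQ
  obtain ⟨σ, hσ, HBσ⟩ := HB κ0 hκ0 hκ1
  have hε2 : ε ≤ ε1 := hεe.trans (min_le_left _ _)
  have hε3 : K1 * (4 * ε) ≤ γ / 8 := by
    have h1 : ε ≤ γ / (32 * (K1 + 1)) := hεe.trans (min_le_right _ _)
    rw [le_div_iff₀ (by positivity)] at h1
    nlinarith
  -- the final smallness
  obtain ⟨n1, hn1⟩ := exists_nat_gt ((K1 * (1 + σ) - Real.log Q) / (5 / 8 * γ))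
  refine ⟨n1 + 1, ?_⟩
  intro n χ χa χn χl θ εc hn hVP hSF h01 hθ hεc
  have hn0 : 1 ≤ n := by omega
  have hnr : (0 : ℝ) < n := by exact_mod_cast hn0
  have hfin : Real.exp (γ / 8 * n) ^ 2 * Real.exp (K1 * (1 + σ + 4 * ε * n) - γ * n) ≤ Q := by
    have h1 : (n1 : ℝ) ≤ n := by exact_mod_cast (by omega : n1 ≤ n)
    have h2 : (K1 * (1 + σ) - Real.log Q) / (5 / 8 * γ) < n := hn1.trans_le h1
    rw [div_lt_iff₀ (by positivity)] at h2
    rw [← Real.exp_nat_mul, ← Real.exp_add, ← Real.le_log_iff_exp_le hQ]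
    push_cast
    have h3 : K1 * (4 * ε) * n ≤ γ / 8 * n := mul_le_mul_of_nonneg_right hε3 hnr.le
    nlinarith
  intro l g g' J c hl hll hJ
  have hll' : εc / 100 ≤ εc / 100 := le_rfl
  -- zero sets
  set Z : SL(2, ℝ) → Finset ℕ := fun h => (Finset.range n).filter fun i => χ (h * aM i) = 0 with hZ
  have hZmem : ∀ h : SL(2, ℝ), θ ((∑ i ∈ Finset.range n, χ (h * aM i)) / n) ≠ 0 → Z h ∈ (Finset.range n).powerset.filter (fun B : Finset ℕ => (B.card : ℝ) ≤ 2 * ε * n) := by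
    intro h hh
    rw [Finset.mem_filter, Finset.mem_powerset]
    exact ⟨Finset.filter_subset _ _, LFG_card θ ε n (fun i => χ (h * aM i)) hn0 hθ (fun i => (h01 _).2) hh⟩
  have hZne : ∀ (h : SL(2, ℝ)) (i : ℕ), i < n → i ∉ Z h → χ (h * aM i) ≠ 0 := by
    intro h i hi hiZ h0
    exact hiZ (Finset.mem_filter.mpr ⟨Finset.mem_range.mpr hi, h0⟩)
  -- witnesses
  have hJ' : ∀ j : ℤ, ∃ B : Finset ℕ, j ∈ J → (B ∈ (Finset.range n).powerset.filter (fun B : Finset ℕ => (B.card : ℝ) ≤ 2 * ε * n) ∧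
      IR.JC {h | ∀ i < n, i ∉ B → χ (h * aM (-n) * aM i) ≠ 0} εc l (εc / 100) g j) := by
    intro j
    by_cases hj : j ∈ J
    · obtain ⟨h1, u, hu, x, τ, o, e, he, hx, hτ, ho, hW⟩ := hJ j hj
      refine ⟨Z (e * g * lM (l * u) * nM (j * εc + x) * aM τ * lM o * aM (-n)), fun _ => ⟨hZmem _ hW, h1, u, hu, x, τ, o, e, he, hx, hτ, ho, ?_⟩⟩
      intro i hi hiB
      exact hZne _ i hi hiB
    · exact ⟨∅, fun h => absurd h hj⟩
  choose P hP using hJ'
  have key := LFG_cover n ε (Real.exp (K1 * (1 + σ + 4 * ε * n) - γ * n)) J c {v | θ ((∑ i ∈ Finset.range n, χ (g' * lM v * aM i)) / n) ≠ 0}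
    (fun B => {v | ∀ i < n, i ∉ B → χ (g' * lM v * aM i) ≠ 0}) P (Real.exp_nonneg _) ?_ (fun j hj => (hP j hj).1) ?_
  · refine key.trans ?_
    refine mul_le_mul_of_nonneg_right ?_ (Finset.sum_nonneg fun _ _ => by positivity)
    refine le_trans ?_ hfin
    refine mul_le_mul_of_nonneg_right ?_ (Real.exp_nonneg _)
    exact pow_le_pow_left₀ (Nat.cast_nonneg _) (HC ε n hε hε2) 2
  · rintro v ⟨_, hv⟩
    exact ⟨Z (g' * lM v), hZmem _ hv, fun i hi hiB => hZne _ i hi hiB⟩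
  · intro B hBm B' hBm'
    have hb : (B.card : ℝ) ≤ 2 * ε * n := (Finset.mem_filter.mp hBm).2
    have hb' : (B'.card : ℝ) ≤ 2 * ε * n := (Finset.mem_filter.mp hBm').2
    have hmeas : MeasurableSet {v : ℝ | ∀ i < n, i ∉ B → χ (g' * lM v * aM i) ≠ 0} := by
      have h1 : {v : ℝ | ∀ i < n, i ∉ B → χ (g' * lM v * aM i) ≠ 0} = ⋂ i : ℕ, ⋂ (_ : i < n), ⋂ (_ : i ∉ B), {v : ℝ | χ (g' * lM v * aM i) ≠ 0} := by
        ext v
        simp
      rw [h1]
      refine MeasurableSet.iInter fun i => MeasurableSet.iInter fun _ => MeasurableSet.iInter fun _ => ?_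
      exact (isOpen_ne_fun (LFG_cont hG Γ χ χa χn χl hSF g' i) continuous_const).measurableSet
    have h2 := HU σ n B B' {v | ∀ i < n, i ∉ B → χ (g' * lM v * aM i) ≠ 0} (J.filter fun j => P j = B') c hσ hmeas ?_ ?_
    · refine h2.trans (mul_le_mul_of_nonneg_right ?_ (Finset.sum_nonneg fun _ _ => by positivity))
      rw [Real.exp_le_exp]
      have h3 : K1 * (1 + σ + B.card + B'.card) ≤ K1 * (1 + σ + 4 * ε * n) := mul_le_mul_of_nonneg_left (by linarith) hK1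
      linarith
    · intro s hs hsn hb3 v
      obtain ⟨x, hx, hd⟩ := HF χ n B g' hVP s hs (by linarith [le_max_left T1 T2]) (fun b hbB hb4 => hb3 b hbB ⟨by linarith [le_max_left T1 T2], by linarith [le_max_left T1 T2]⟩) v
      refine ⟨x, hx, hd.mono_left ?_⟩
      have h4 : cc * Real.exp (-s) ≤ c1 * Real.exp (-s) := mul_le_mul_of_nonneg_right (min_le_left _ _) (Real.exp_nonneg _)
      exact Ioo_subset_Ioo (by linarith) (by linarith)
    · intro s hs hsn hb3 ξ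
      have hJC : ∀ j ∈ J.filter (fun j => P j = B'), IR.JC {h | ∀ i < n, i ∉ B' → χ (h * aM (-n) * aM i) ≠ 0} εc l (εc / 100) g j := by
        intro j hj
        obtain ⟨hjJ, hjP⟩ := Finset.mem_filter.mp hj
        have := (hP j hjJ).2
        rw [hjP] at this
        exact this
      have hb5 : ∀ b ∈ B', ¬ (s - σ - T2 ≤ b ∧ (b : ℝ) ≤ s - σ + T2) :=
        fun b hbB hb4 => hb3 b hbB ⟨by linarith [le_max_right T1 T2], by linarith [le_max_right T1 T2]⟩
      obtain ⟨y, hy, hyJ⟩ := HBσ χ n B' εc l (εc / 100) g (J.filter fun j => P j = B') hVP hεc hl hll le_rfl hJC s (by linarith [le_max_right T1 T2]) hsn hb5 ξ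
      refine ⟨y, hy, fun j hj => le_trans ?_ (hyJ j hj)⟩
      exact mul_le_mul_of_nonneg_right (min_le_right _ _) (Real.exp_nonneg _)

end Pool.Agent.FS
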