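import Pool.Agent.helper52.FS.SpecP

open MeasureTheory Set

set_option autoImplicit false

namespace Pool.Agent.FS

theorem FIT_cont (S : Finset ℤ) (a : ℤ → ℂ) : Continuous (tp S a) := by
  unfold tp ee
  fun_prop

theorem FIT_step (c τ K R1 : ℝ) (B H : ℕ) (hc0 : 0 < c) (hK : 1 ≤ K) (hR1 : 1 ≤ R1) (hτ0 : 0 < τ) (hτ1 : τ ≤ 1 / 20)
    (hH2 : 2 ≤ H) (hH : 32 * (B : ℝ) / c ≤ H) (hMUL : MUL_stmt)
    (hL : ∀ (M : ℕ) (S : Finset ℤ) (a : ℤ → ℂ) (E : Set ℝ), 1 ≤ M → MeasurableSet E → (∀ y : ℝ, y + 4 ∈ E ↔ y ∈ E) → (∀ m : ℤ, ∃ x : ℝ, (m : ℝ) / M ≤ x ∧ x ≤ ((m : ℝ) + 1) / M ∧ Ioo (x - c / 4 / M) (x + c / 4 / M) ⊆ E) →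
      (∀ R : ℝ, 1 * (M : ℝ) ≤ R → R ≤ R1 * M → ∀ ξ : ℝ, ∃ y ∈ Icc ξ (ξ + R), ∀ j ∈ S, c / 4 * R ≤ |Real.pi * j / 2 - y|) →
      ∫ v in Icc (0 : ℝ) 4, ‖tp S a v‖ ^ 2 ≤ K * ∫ v in E ∩ Icc (0 : ℝ) 4, ‖tp S a v‖ ^ 2)
    (t : ℕ) (Y : Set ℝ) (J S : Finset ℤ) (b : ℤ → ℂ) (D : ℕ) (hSD : ∀ j ∈ S, ∃ i ∈ J, |j - i| ≤ (D : ℤ)) (hD : D * H ≤ 2 * B * H ^ t)
    (hgap : ∀ R : ℝ, ((H ^ t : ℕ) : ℝ) ≤ R → R ≤ R1 * ((H ^ t : ℕ) : ℝ) → ∀ ξ : ℝ, ∃ y ∈ Icc ξ (ξ + R), ∀ j ∈ J, c * R ≤ |Real.pi * j / 2 - y|)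
    (hC : ∃ (p : ℤ → ℂ) (E : Set ℝ), MeasurableSet E ∧ (∀ y : ℝ, y + 4 ∈ E ↔ y ∈ E) ∧ (∀ m : ℤ, ∃ x : ℝ, (m : ℝ) / ((H ^ t : ℕ) : ℝ) ≤ x ∧ x ≤ ((m : ℝ) + 1) / ((H ^ t : ℕ) : ℝ) ∧ Ioo (x - c / 4 / ((H ^ t : ℕ) : ℝ)) (x + c / 4 / ((H ^ t : ℕ) : ℝ)) ⊆ E) ∧
      (∀ v : ℝ, ‖tp (Finset.Icc (-((B * H ^ t : ℕ) : ℤ)) (B * H ^ t : ℕ)) p v‖ ≤ 1) ∧ (∀ v ∈ E, ‖tp (Finset.Icc (-((B * H ^ t : ℕ) : ℤ)) (B * H ^ t : ℕ)) p v‖ ≤ τ) ∧
      ∀ v ∈ Y ∩ Icc 0 1, 1 - τ ≤ ‖tp (Finset.Icc (-((B * H ^ t : ℕ) : ℤ)) (B * H ^ t : ℕ)) p v‖) :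
    ∃ (S' : Finset ℤ) (b' : ℤ → ℂ) (D' : ℕ), (∀ j ∈ S', ∃ i ∈ J, |j - i| ≤ (D' : ℤ)) ∧ D' * H ≤ 2 * B * H ^ (t + 1) ∧
      (∀ v ∈ Y ∩ Icc (0 : ℝ) 1, (1 - τ) * ‖tp S b v‖ ≤ ‖tp S' b' v‖) ∧
      ∫ v in Icc (0 : ℝ) 4, ‖tp S' b' v‖ ^ 2 ≤ (1 - 1 / (2 * K)) * ∫ v in Icc (0 : ℝ) 4, ‖tp S b v‖ ^ 2 := by
  obtain ⟨p, E, hEm, hE4, hEb, hp1, hpE, hpY⟩ := hC
  set T : Finset ℤ := Finset.Icc (-((B * H ^ t : ℕ) : ℤ)) (B * H ^ t : ℕ) with hT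
  obtain ⟨S', b', hb', hS'⟩ := hMUL S T b p
  have hMpos : 1 ≤ H ^ t := Nat.one_le_pow _ _ (by omega)
  have hMr : (1 : ℝ) ≤ ((H ^ t : ℕ) : ℝ) := by exact_mod_cast hMpos
  refine ⟨S', b', D + B * H ^ t, ?_, ?_, ?_, ?_⟩
  · intro j hj
    obtain ⟨i, hi, k, hk, hjk⟩ := hS' j hj
    obtain ⟨i0, hi0, hii⟩ := hSD i hi
    refine ⟨i0, hi0, ?_⟩
    rw [hT, Finset.mem_Icc] at hk
    rw [abs_le] at hii ⊢
    push_cast at hk hii ⊢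
    constructor <;> omega
  · have : 2 * B * H ^ t ≤ B * H ^ t * H := by
      have h1 : B * H ^ t * 2 ≤ B * H ^ t * H := Nat.mul_le_mul_left _ hH2
      nlinarith [h1]
    calc (D + B * H ^ t) * H = D * H + B * H ^ t * H := by ring
      _ ≤ 2 * B * H ^ t + B * H ^ t * H := by omega
      _ ≤ B * H ^ t * H + B * H ^ t * H := by omega
      _ = 2 * B * H ^ (t + 1) := by ring
  · intro v hv
    rw [hb' v, norm_mul]
    exact mul_le_mul_of_nonneg_right (hpY v hv) (norm_nonneg _)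
  · -- the energy
    have hF : Continuous (fun v => ‖tp S b v‖ ^ 2) := ((FIT_cont S b).norm).pow 2
    have hF' : Continuous (fun v => ‖tp S' b' v‖ ^ 2) := ((FIT_cont S' b').norm).pow 2
    have hI : IntegrableOn (fun v => ‖tp S b v‖ ^ 2) (Icc (0 : ℝ) 4) := hF.continuousOn.integrableOn_compact isCompact_Icc
    have hI' : IntegrableOn (fun v => ‖tp S' b' v‖ ^ 2) (Icc (0 : ℝ) 4) := hF'.continuousOn.integrableOn_compact isCompact_Icc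
    have hHr : (0 : ℝ) < (H : ℝ) := by exact_mod_cast (by omega : 0 < H)
    have hLS : ∫ v in Icc (0 : ℝ) 4, ‖tp S b v‖ ^ 2 ≤ K * ∫ v in E ∩ Icc (0 : ℝ) 4, ‖tp S b v‖ ^ 2 := by
      refine hL (H ^ t) S b E hMpos hEm hE4 hEb ?_
      intro R hR hR' ξ
      rw [one_mul] at hR
      obtain ⟨y, hy, hyJ⟩ := hgap R hR hR' ξ
      refine ⟨y, hy, ?_⟩
      intro j hj
      obtain ⟨i, hi, hij⟩ := hSD j hj
      have h1 := hyJ i hi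
      have h2 : |(j : ℝ) - i| ≤ (D : ℝ) := by exact_mod_cast hij
      have h3 : |Real.pi * i / 2 - y| ≤ |Real.pi * j / 2 - y| + Real.pi / 2 * D := by
        have h4 : Real.pi * i / 2 - y = (Real.pi * j / 2 - y) - Real.pi / 2 * ((j : ℝ) - i) := by ring
        rw [h4]
        refine (abs_sub _ _).trans ?_
        rw [abs_mul, abs_of_pos (by positivity : (0 : ℝ) < Real.pi / 2)]
        have := mul_le_mul_of_nonneg_left h2 (by positivity : (0 : ℝ) ≤ Real.pi / 2)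
        linarith
      -- pi/2 * D <= 3/4 c R
      have h5 : (D : ℝ) * H ≤ 2 * B * ((H ^ t : ℕ) : ℝ) := by exact_mod_cast hD
      have h6 : 32 * (B : ℝ) ≤ H * c := by
        rw [div_le_iff₀ hc0] at hH
        exact hH
      have h7 : (D : ℝ) * H ≤ (c / 16 * R) * H := by
        have h8 : (2 * (B : ℝ)) * ((H ^ t : ℕ) : ℝ) ≤ (H * c / 16) * R := by
          refine mul_le_mul ?_ hR (by positivity) (by positivity)
          linarith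
        linarith [h5, h8]
      have h9 : (D : ℝ) ≤ c / 16 * R := le_of_mul_le_mul_right h7 hHr
      have hRpos : 0 < R := by linarith
      have h10 : Real.pi / 2 * D ≤ 2 * (c / 16 * R) := by
        refine mul_le_mul ?_ h9 (by positivity) (by norm_num)
        linarith [Real.pi_le_four]
      have h11 : 0 < c * R := by positivity
      nlinarith [h10, h1, h3, h11]
    -- split
    have hs1 : ∫ v in Icc (0 : ℝ) 4, ‖tp S' b' v‖ ^ 2 = (∫ v in Icc (0 : ℝ) 4 ∩ E, ‖tp S' b' v‖ ^ 2) + ∫ v in Icc (0 : ℝ) 4 \ E, ‖tp S' b' v‖ ^ 2 :=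
      (integral_inter_add_diff hEm hI').symm
    have hs2 : ∫ v in Icc (0 : ℝ) 4, ‖tp S b v‖ ^ 2 = (∫ v in Icc (0 : ℝ) 4 ∩ E, ‖tp S b v‖ ^ 2) + ∫ v in Icc (0 : ℝ) 4 \ E, ‖tp S b v‖ ^ 2 :=
      (integral_inter_add_diff hEm hI).symm
    have hs3 : ∫ v in Icc (0 : ℝ) 4 ∩ E, ‖tp S' b' v‖ ^ 2 ≤ τ ^ 2 * ∫ v in Icc (0 : ℝ) 4 ∩ E, ‖tp S b v‖ ^ 2 := by
      rw [← integral_const_mul]
      refine setIntegral_mono_on (hI'.mono_set inter_subset_left) ((hI.mono_set inter_subset_left).const_mul _) (measurableSet_Icc.inter hEm) ?_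
      intro v hv
      have h1 := hpE v hv.2
      rw [hb' v, norm_mul, mul_pow]
      exact mul_le_mul_of_nonneg_right (pow_le_pow_left₀ (norm_nonneg _) h1 2) (by positivity)
    have hs4 : ∫ v in Icc (0 : ℝ) 4 \ E, ‖tp S' b' v‖ ^ 2 ≤ ∫ v in Icc (0 : ℝ) 4 \ E, ‖tp S b v‖ ^ 2 := by
      refine setIntegral_mono_on (hI'.mono_set diff_subset) (hI.mono_set diff_subset) (measurableSet_Icc.diff hEm) ?_
      intro v hv
      have h1 := hp1 v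
      rw [hb' v, norm_mul, mul_pow]
      have h2 : ‖tp T p v‖ ^ 2 ≤ 1 := pow_le_one₀ (norm_nonneg _) h1
      calc ‖tp T p v‖ ^ 2 * ‖tp S b v‖ ^ 2 ≤ 1 * ‖tp S b v‖ ^ 2 := mul_le_mul_of_nonneg_right h2 (by positivity)
        _ = _ := one_mul _
    rw [inter_comm E] at hLS
    set a1 := ∫ v in Icc (0 : ℝ) 4 ∩ E, ‖tp S b v‖ ^ 2 with ha1
    set a2 := ∫ v in Icc (0 : ℝ) 4 \ E, ‖tp S b v‖ ^ 2 with ha2
    set a3 := ∫ v in Icc (0 : ℝ) 4, ‖tp S b v‖ ^ 2 with ha3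
    have ha1' : 0 ≤ a1 := setIntegral_nonneg (measurableSet_Icc.inter hEm) (fun v _ => by positivity)
    have hτ2 : τ ^ 2 ≤ 1 / 2 := by nlinarith
    have h1 : ∫ v in Icc (0 : ℝ) 4, ‖tp S' b' v‖ ^ 2 ≤ 1 / 2 * a1 + a2 := by
      rw [hs1]
      have := mul_le_mul_of_nonneg_right hτ2 ha1'
      linarith
    have hKpos : 0 < K := by linarith
    have h2 : 1 / (2 * K) * a3 ≤ 1 / 2 * a1 := by
      have h3 : a3 / K ≤ a1 := by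
        rw [div_le_iff₀ hKpos]
        linarith
      have h4 : 1 / (2 * K) * a3 = 1 / 2 * (a3 / K) := by
        field_simp
      rw [h4]
      linarith
    have : (1 - 1 / (2 * K)) * a3 = a3 - 1 / (2 * K) * a3 := by ring
    rw [this]
    linarith

theorem FIT_proof (hLSM : LSM_stmt) (hMUL : MUL_stmt) (hCUT : CUT_stmt) (hPAR : PAR_stmt) : FIT_stmt := by
  intro c hc0 hc1
  obtain ⟨K, R1, hK, hR1, hL⟩ := hLSM (c / 4) 1 (by positivity) (by linarith) le_rfl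
  have hKpos : 0 < K := by linarith
  obtain ⟨B, hB, hC⟩ := hCUT c (1 / (20 * K)) hc0 hc1 (by positivity) (by
    rw [div_lt_one (by positivity)]
    linarith)
  set τ : ℝ := 1 / (20 * K) with hτ
  have hτ0 : 0 < τ := by positivity
  have hτ1 : τ ≤ 1 / 20 := by
    rw [hτ]
    apply one_div_le_one_div_of_le (by norm_num)
    linarith
  obtain ⟨H0, hH0⟩ := exists_nat_ge (32 * (B : ℝ) / c)
  set H : ℕ := H0 + 2 with hHdef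
  have hH2 : 2 ≤ H := by omega
  have hH : 32 * (B : ℝ) / c ≤ H := by
    rw [hHdef]
    push_cast
    linarith
  have hq0 : (1 : ℝ) / 2 ≤ 1 - 1 / (2 * K) := by
    have : 1 / (2 * K) ≤ 1 / 2 := by
      apply one_div_le_one_div_of_le (by norm_num)
      linarith
    linarith
  have h1τ : (0 : ℝ) < 1 - τ := by linarith
  have hKτ : 1 / (2 * K) = 10 * τ := by
    rw [hτ]
    field_simp
    norm_num
  refine ⟨(1 - 1 / (2 * K)) / (1 - τ) ^ 2, R1, H, ?_, ?_, hR1, hH2, ?_⟩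
  · positivity
  · rw [div_lt_one (by positivity), hKτ]
    nlinarith
  intro t0 T Y J a hYm hYp hgap
  have key : ∀ n : ℕ, n ≤ T → ∃ (S : Finset ℤ) (b : ℤ → ℂ) (D : ℕ), (∀ j ∈ S, ∃ i ∈ J, |j - i| ≤ (D : ℤ)) ∧ D * H ≤ 2 * B * H ^ (t0 + n) ∧
      (∀ v ∈ Y ∩ Icc (0 : ℝ) 1, (1 - τ) ^ n * ‖tp J a v‖ ≤ ‖tp S b v‖) ∧
      ∫ v in Icc (0 : ℝ) 4, ‖tp S b v‖ ^ 2 ≤ (1 - 1 / (2 * K)) ^ n * ∫ v in Icc (0 : ℝ) 4, ‖tp J a v‖ ^ 2 := by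
    intro n
    induction n with
    | zero =>
      intro _
      refine ⟨J, a, 0, ?_, by simp, ?_, ?_⟩
      · intro j hj
        exact ⟨j, hj, by simp⟩
      · intro v _
        simp
      · simp
    | succ n ih =>
      intro hn
      obtain ⟨S, b, D, hSD, hD, hlow, hen⟩ := ih (by omega)
      have hM1 : 1 ≤ H ^ (t0 + n) := Nat.one_le_pow _ _ (by omega)
      have hY := hYp (t0 + n) (by omega) (by omega)
      have hgap' : ∀ R : ℝ, ((H ^ (t0 + n) : ℕ) : ℝ) ≤ R → R ≤ R1 * ((H ^ (t0 + n) : ℕ) : ℝ) → ∀ ξ : ℝ, ∃ y ∈ Icc ξ (ξ + R), ∀ j ∈ J, c * R ≤ |Real.pi * j / 2 - y| := by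
        intro R hR hR' ξ
        have hH1 : (1 : ℝ) ≤ (H : ℝ) := by exact_mod_cast (by omega : 1 ≤ H)
        refine hgap R ?_ ?_ ξ
        · refine le_trans ?_ hR
          push_cast
          exact pow_le_pow_right₀ hH1 (by omega)
        · refine hR'.trans ?_
          push_cast
          exact mul_le_mul_of_nonneg_left (pow_le_pow_right₀ hH1 (by omega)) (by linarith)
      obtain ⟨S', b', D', h1, h2, h3, h4⟩ := FIT_step c τ K R1 B H hc0 hK hR1 hτ0 hτ1 hH2 hH hMUL hL (t0 + n) Y J S b D hSD hD hgap' (hC (H ^ (t0 + n)) Y hM1 hY)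
      refine ⟨S', b', D', h1, h2, ?_, ?_⟩
      · intro v hv
        calc (1 - τ) ^ (n + 1) * ‖tp J a v‖ = (1 - τ) * ((1 - τ) ^ n * ‖tp J a v‖) := by rw [pow_succ']; ring
          _ ≤ (1 - τ) * ‖tp S b v‖ := mul_le_mul_of_nonneg_left (hlow v hv) h1τ.le
          _ ≤ _ := h3 v hv
      · refine h4.trans ((mul_le_mul_of_nonneg_left hen (by linarith)).trans (le_of_eq ?_))
        rw [pow_succ']
        ring
  obtain ⟨S, b, D, -, -, hlow, hen⟩ := key T le_rfl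
  have hF : Continuous (fun v => ‖tp S b v‖ ^ 2) := ((FIT_cont S b).norm).pow 2
  have hF0 : Continuous (fun v => ‖tp J a v‖ ^ 2) := ((FIT_cont J a).norm).pow 2
  have hI : IntegrableOn (fun v => ‖tp S b v‖ ^ 2) (Icc (0 : ℝ) 4) := hF.continuousOn.integrableOn_compact isCompact_Icc
  have hI0 : IntegrableOn (fun v => ‖tp J a v‖ ^ 2) (Icc (0 : ℝ) 4) := hF0.continuousOn.integrableOn_compact isCompact_Icc
  have hsub : Y ∩ Icc (0 : ℝ) 1 ⊆ Icc (0 : ℝ) 4 := fun v hv => ⟨hv.2.1, by linarith [hv.2.2]⟩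
  have h1 : ((1 - τ) ^ 2) ^ T * ∫ v in Y ∩ Icc (0 : ℝ) 1, ‖tp J a v‖ ^ 2 ≤ ∫ v in Y ∩ Icc (0 : ℝ) 1, ‖tp S b v‖ ^ 2 := by
    rw [← integral_const_mul]
    refine setIntegral_mono_on ((hI0.mono_set hsub).const_mul _) (hI.mono_set hsub) (hYm.inter measurableSet_Icc) ?_
    intro v hv
    have h2 := hlow v hv
    have h3 : (((1 - τ) ^ 2) ^ T) * ‖tp J a v‖ ^ 2 = ((1 - τ) ^ T * ‖tp J a v‖) ^ 2 := by
      rw [mul_pow, ← pow_mul, ← pow_mul, mul_comm 2 T]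
    rw [h3]
    exact pow_le_pow_left₀ (by positivity) h2 2
  have h2 : ∫ v in Y ∩ Icc (0 : ℝ) 1, ‖tp S b v‖ ^ 2 ≤ ∫ v in Icc (0 : ℝ) 4, ‖tp S b v‖ ^ 2 := by
    refine setIntegral_mono_set hI ?_ ?_
    · exact Filter.Eventually.of_forall (fun v => by positivity)
    · exact hsub.eventuallyLE
  rw [hPAR J a] at hen
  have h3 : ((1 - τ) ^ 2) ^ T * ∫ v in Y ∩ Icc (0 : ℝ) 1, ‖tp J a v‖ ^ 2 ≤ (1 - 1 / (2 * K)) ^ T * (4 * ∑ j ∈ J, ‖a j‖ ^ 2) := by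
    linarith
  have hpos : (0 : ℝ) < ((1 - τ) ^ 2) ^ T := by positivity
  rw [div_pow]
  have h4 : 4 * ((1 - 1 / (2 * K)) ^ T / ((1 - τ) ^ 2) ^ T) * ∑ j ∈ J, ‖a j‖ ^ 2 = ((1 - 1 / (2 * K)) ^ T * (4 * ∑ j ∈ J, ‖a j‖ ^ 2)) / ((1 - τ) ^ 2) ^ T := by
    ring
  rw [h4, le_div_iff₀ hpos]
  linarith

end Pool.Agent.FS
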